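import Pool.Agent.H632.HD.LC

/-!
# A global lower bound for the number of zeros
-/

set_option autoImplicit false

namespace Pool.Agent.H632.HD

open Filter MeasureTheory Metric Real Set Topology Complex
open scoped ComplexConjugate

theorem tlb_abs {H : ℂ → ℂ} (hH : Differentiable ℂ H) (hsym : ∀ z, ‖H (-conj z)‖ = ‖H z‖)
    {G : ℝ → ℝ} {L C T : ℝ} (hC : 0 ≤ C) (hL : 10 * C ≤ L) (hT : 516 ≤ T)
    (hG : ∀ t : ℝ, T ≤ t → t ≤ 2 * T → 0 < G t)
    (hup : ∀ t : ℝ, T ≤ t → t ≤ 2 * T → ∀ x y : ℝ, 0 ≤ x → x ≤ 128 → |y - t| ≤ 128 →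
      ‖H ((x : ℂ) + (y : ℂ) * I)‖ ≤ G t * Real.exp (L * (x / 2 + 1 / 2) + C))
    (hlow : ∀ t : ℝ, T ≤ t → t ≤ 2 * T → ∃ s : ℝ, |s| ≤ 1 ∧ G t * Real.exp (L * (15 / 2) - C) ≤
      ‖H (((15 + s : ℝ) : ℂ) + (t : ℂ) * I)‖) :
    ∃ S : Finset ℂ, (∀ z ∈ S, H z = 0 ∧ T ≤ z.im ∧ z.im ≤ 2 * T) ∧
      1 / 1290 * (T * L) ≤ ∑ z ∈ S, (analyticOrderNatAt H z : ℝ) := by
  have hL0 : 0 ≤ L := by linarith
  set n : ℕ := ⌊T / 258⌋₊ with hn
  have hn1 : (n : ℝ) ≤ T / 258 := Nat.floor_le (by linarith)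
  have hn2 : T / 258 < n + 1 := Nat.lt_floor_add_one _
  have hloc : ∀ j : ℕ, ∃ S : Finset ℂ, j < n →
      (∀ u ∈ S, H u = 0 ∧ T + 258 * j + 1 ≤ u.im ∧ u.im ≤ T + 258 * j + 257) ∧
      2 / 5 * L ≤ ∑ u ∈ S, (analyticOrderNatAt H u : ℝ) := by
    intro j
    by_cases hj : j < n
    · have hj0 : (0 : ℝ) ≤ j := Nat.cast_nonneg _
      have hj1 : (j : ℝ) + 1 ≤ n := by exact_mod_cast hj
      have ht1 : T ≤ T + 129 + 258 * (j : ℝ) := by linarith
      have ht2 : T + 129 + 258 * (j : ℝ) ≤ 2 * T := by linarith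
      obtain ⟨S, hS1, hS2⟩ := local_count hH hsym (hG _ ht1 ht2) hC hL (hup _ ht1 ht2)
        (hlow _ ht1 ht2)
      refine ⟨S, fun _ => ⟨fun u hu => ?_, hS2⟩⟩
      obtain ⟨hb, ho⟩ := hS1 u hu
      have hz : H u = 0 := by
        by_contra h0
        have := (hH.analyticAt u).analyticOrderAt_eq_zero.mpr h0
        rw [analyticOrderNatAt, this] at ho
        simp at ho
      have h1 := (abs_im_le_norm _).trans (mem_closedBall_iff_norm.mp hb)
      have h2 : (u - ((T + 129 + 258 * (j : ℝ) : ℝ) : ℂ) * I).im =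
          u.im - (T + 129 + 258 * (j : ℝ)) := by
        rw [sub_im, mul_im, ofReal_re, ofReal_im, I_re, I_im]
        ring
      rw [h2, abs_le] at h1
      exact ⟨hz, by linarith [h1.1], by linarith [h1.2]⟩
    · exact ⟨∅, fun h => absurd h hj⟩
  choose S hS using hloc
  have hdisj : (↑(Finset.range n) : Set ℕ).PairwiseDisjoint S := by
    intro i hi j hj hij
    rw [Function.onFun, Finset.disjoint_left]
    intro u hu hu'
    rw [Finset.coe_range, Set.mem_Iio] at hi hj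
    obtain ⟨-, a1, a2⟩ := (hS i hi).1 u hu
    obtain ⟨-, b1, b2⟩ := (hS j hj).1 u hu'
    rcases lt_or_gt_of_ne hij with h | h
    · have : (i : ℝ) + 1 ≤ j := by exact_mod_cast h
      linarith
    · have : (j : ℝ) + 1 ≤ i := by exact_mod_cast h
      linarith
  refine ⟨(Finset.range n).biUnion S, fun z hz => ?_, ?_⟩
  · rw [Finset.mem_biUnion] at hz
    obtain ⟨j, hj, hz⟩ := hz
    rw [Finset.mem_range] at hj
    obtain ⟨h0, a1, a2⟩ := (hS j hj).1 z hz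
    have hj0 : (0 : ℝ) ≤ j := Nat.cast_nonneg _
    have hj1 : (j : ℝ) + 1 ≤ n := by exact_mod_cast hj
    exact ⟨h0, by linarith, by linarith⟩
  · rw [Finset.sum_biUnion hdisj]
    have h1 : ∑ _j ∈ Finset.range n, 2 / 5 * L ≤
        ∑ j ∈ Finset.range n, ∑ u ∈ S j, (analyticOrderNatAt H u : ℝ) :=
      Finset.sum_le_sum fun j hj => (hS j (Finset.mem_range.mp hj)).2
    rw [Finset.sum_const, Finset.card_range, nsmul_eq_mul] at h1
    refine le_trans ?_ h1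
    have h2 : T / 516 ≤ n := by linarith
    have h3 : T / 516 * (2 / 5 * L) ≤ n * (2 / 5 * L) :=
      mul_le_mul_of_nonneg_right h2 (by positivity)
    linarith

end Pool.Agent.H632.HD
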