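import Pool.Agent.H632.HD.LZ

/-!
# A local lower bound for the number of zeros
-/

set_option autoImplicit false

namespace Pool.Agent.H632.HD

open Filter MeromorphicAt MeasureTheory MeromorphicOn Metric Real Set Topology Complex
open scoped ComplexConjugate

theorem order_smul {H : ℂ → ℂ} (hH : Differentiable ℂ H) {a : ℂ} (ha : a ≠ 0) (u : ℂ) :
    analyticOrderNatAt (fun z => a * H z) u = analyticOrderNatAt H u := by
  have h1 : analyticOrderAt (fun _ : ℂ => a) u = 0 :=
    (analyticAt_const).analyticOrderAt_eq_zero.mpr ha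
  have h2 : analyticOrderAt ((fun _ : ℂ => a) * H) u =
      analyticOrderAt (fun _ : ℂ => a) u + analyticOrderAt H u :=
    analyticOrderAt_mul analyticAt_const (hH.analyticAt u)
  rw [h1, zero_add] at h2
  unfold analyticOrderNatAt
  rw [show (fun z => a * H z) = (fun _ : ℂ => a) * H from rfl, h2]

theorem local_count {H : ℂ → ℂ} (hH : Differentiable ℂ H) (hsym : ∀ z, ‖H (-conj z)‖ = ‖H z‖)
    {G L C t : ℝ} (hG : 0 < G) (hC : 0 ≤ C) (hL : 10 * C ≤ L)
    (hup : ∀ x y : ℝ, 0 ≤ x → x ≤ 128 → |y - t| ≤ 128 →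
      ‖H ((x : ℂ) + (y : ℂ) * I)‖ ≤ G * Real.exp (L * (x / 2 + 1 / 2) + C))
    (hlow : ∃ s : ℝ, |s| ≤ 1 ∧ G * Real.exp (L * (15 / 2) - C) ≤
      ‖H (((15 + s : ℝ) : ℂ) + (t : ℂ) * I)‖) :
    ∃ S : Finset ℂ, (∀ u ∈ S, u ∈ closedBall ((t : ℂ) * I) 128 ∧ 0 < analyticOrderNatAt H u) ∧
      2 / 5 * L ≤ ∑ u ∈ S, (analyticOrderNatAt H u : ℝ) := by
  have hL0 : 0 ≤ L := by linarith
  set c : ℂ := (t : ℂ) * I with hc
  set h : ℂ → ℂ := fun z => ((G⁻¹ : ℝ) : ℂ) * H z with hh
  have hGi : ((G⁻¹ : ℝ) : ℂ) ≠ 0 := by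
    exact_mod_cast (inv_pos.mpr hG).ne'
  have hhd : Differentiable ℂ h := by
    rw [hh]; exact hH.const_mul _
  have hnorm : ∀ z, ‖h z‖ = G⁻¹ * ‖H z‖ := by
    intro z
    rw [hh]
    simp only [norm_mul, norm_real, norm_eq_abs, abs_of_pos (inv_pos.mpr hG)]
  have hord : ∀ u, analyticOrderNatAt h u = analyticOrderNatAt H u := fun u =>
    order_smul hH hGi u
  -- upper bound at a distance
  have hU : ∀ (r : ℝ) (z : ℂ), 0 ≤ r → r ≤ 128 → ‖z - c‖ ≤ r →
      Real.log ‖h z‖ ≤ L * (r / 2 + 1 / 2) + C := by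
    intro r z hr0 hr hz
    have hre : |z.re| ≤ r := by
      have := (abs_re_le_norm (z - c)).trans hz
      rw [hc] at this
      simpa using this
    have him : |z.im - t| ≤ r := by
      have := (abs_im_le_norm (z - c)).trans hz
      rw [hc] at this
      simpa using this
    have key : ‖H z‖ ≤ G * Real.exp (L * (|z.re| / 2 + 1 / 2) + C) := by
      rcases le_total 0 z.re with h0 | h0
      · have := hup z.re z.im h0 ((le_abs_self _).trans (hre.trans hr)) (him.trans hr)
        rw [re_add_im] at this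
        rwa [abs_of_nonneg h0]
      · have := hup (-z.re) z.im (by linarith) ((neg_le_abs _).trans (hre.trans hr)) (him.trans hr)
        have e : (((-z.re : ℝ) : ℂ) + (z.im : ℂ) * I) = -conj z := by
          apply Complex.ext <;> simp
        rw [e, hsym] at this
        rwa [abs_of_nonpos h0]
    by_cases hz0 : ‖h z‖ = 0
    · rw [hz0, Real.log_zero]
      positivity
    · have hpos : 0 < ‖h z‖ := lt_of_le_of_ne (norm_nonneg _) (Ne.symm hz0)
      have : ‖h z‖ ≤ Real.exp (L * (r / 2 + 1 / 2) + C) := by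
        rw [hnorm, inv_mul_le_iff₀ hG]
        refine key.trans (mul_le_mul_of_nonneg_left ?_ hG.le)
        apply Real.exp_le_exp.mpr
        have : L * (|z.re| / 2 + 1 / 2) ≤ L * (r / 2 + 1 / 2) :=
          mul_le_mul_of_nonneg_left (by linarith) hL0
        linarith
      calc Real.log ‖h z‖ ≤ Real.log (Real.exp (L * (r / 2 + 1 / 2) + C)) :=
            Real.log_le_log hpos this
        _ = _ := Real.log_exp _
  -- lower bound at two points
  obtain ⟨s, hs, hlow⟩ := hlow
  set X : ℝ := 15 + s with hX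
  have hX0 : 0 ≤ X := by rw [hX]; linarith [(abs_le.mp hs).1]
  have hX16 : X ≤ 16 := by rw [hX]; linarith [(abs_le.mp hs).2]
  have hlow1 : Real.exp (L * (15 / 2) - C) ≤ ‖h (c + X)‖ := by
    rw [hnorm, le_inv_mul_iff₀ hG, add_comm c]
    exact hlow
  have hlow2 : Real.exp (L * (15 / 2) - C) ≤ ‖h (c - X)‖ := by
    rw [hnorm] at hlow1 ⊢
    have e : c - (X : ℂ) = -conj (c + X) := by
      rw [hc]
      apply Complex.ext <;> simp
    rw [e, hsym]
    exact hlow1
  have hne1 : h (c + X) ≠ 0 := by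
    rw [← norm_pos_iff]
    exact (Real.exp_pos _).trans_le hlow1
  have hne2 : h (c - X) ≠ 0 := by
    rw [← norm_pos_iff]
    exact (Real.exp_pos _).trans_le hlow2
  have hlog1 : L * (15 / 2) - C ≤ Real.log ‖h (c + X)‖ :=
    (Real.le_log_iff_exp_le ((Real.exp_pos _).trans_le hlow1)).mpr hlow1
  have hlog2 : L * (15 / 2) - C ≤ Real.log ‖h (c - X)‖ :=
    (Real.le_log_iff_exp_le ((Real.exp_pos _).trans_le hlow2)).mpr hlow2
  have hw1 : c + (X : ℂ) ∈ ball c 128 := by
    rw [mem_ball_iff_norm, add_sub_cancel_left, norm_real, norm_eq_abs, abs_of_nonneg hX0]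
    linarith
  have hw2 : c - (X : ℂ) ∈ ball c 128 := by
    rw [mem_ball_iff_norm, sub_sub_cancel_left, norm_neg, norm_real, norm_eq_abs,
      abs_of_nonneg hX0]
    linarith
  have han : AnalyticOnNhd ℂ h (closedBall c 128) := fun z _ => hhd.analyticAt z
  have hpj1 := pj (by norm_num : (0 : ℝ) < 128) han hw1 hne1
  have hpj2 := pj (by norm_num : (0 : ℝ) < 128) han hw2 hne2
  have hPc : ∀ {w : ℂ}, w ∈ ball c 128 → ContinuousOn (poissonKernel c w) (sphere c |128|) := by
    intro w hw
    rw [poissonKernel_eq_re_herglotzRieszKernel]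
    refine Complex.continuous_re.comp_continuousOn (continuousOn_herglotzRieszKernel_sphere hw)
  have hUint : CircleIntegrable (fun z => Real.log ‖h z‖) c 128 := by
    refine MeromorphicOn.circleIntegrable_log_norm ?_
    exact fun z _ => (hhd.analyticAt z).meromorphicAt
  have hi1 : CircleIntegrable (poissonKernel c (c + X) * fun z => Real.log ‖h z‖) c 128 :=
    hUint.continuousOn_mul (hPc hw1)
  have hi2 : CircleIntegrable (poissonKernel c (c - X) * fun z => Real.log ‖h z‖) c 128 :=
    hUint.continuousOn_mul (hPc hw2)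
  set M : ℝ := L * (128 / 2 + 1 / 2) + C with hM
  have hM0 : 0 ≤ M := by rw [hM]; positivity
  set A : ℝ := circleAverage (fun z => Real.log ‖h z‖) c 128 with hA
  -- comparison
  have hcmp : circleAverage (poissonKernel c (c + X) * fun z => Real.log ‖h z‖) c 128 +
      circleAverage (poissonKernel c (c - X) * fun z => Real.log ‖h z‖) c 128 ≤
        2 * ((65 / 63 - 63 / 65) * M + 63 / 65 * A) := by
    rw [← circleAverage_add hi1 hi2]
    have e1 : circleAverage (fun z => 2 * (65 / 63 - 63 / 65) * M + 2 * (63 / 65) *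
        Real.log ‖h z‖) c 128 = 2 * ((65 / 63 - 63 / 65) * M + 63 / 65 * A) := by
      have e2 : (fun z => 2 * (65 / 63 - 63 / 65) * M + 2 * (63 / 65) * Real.log ‖h z‖) =
          (fun _ : ℂ => 2 * (65 / 63 - 63 / 65) * M) + (2 * (63 / 65) : ℝ) •
            (fun z => Real.log ‖h z‖) := by
        ext z
        simp [smul_eq_mul]
      rw [e2, circleAverage_add (circleIntegrable_const _ _ _) (hUint.const_smul),
        circleAverage_const, circleAverage_smul, smul_eq_mul, ← hA]
      ring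
    rw [← e1]
    refine circleAverage_mono (hi1.add hi2) ?_ ?_
    · have e2 : (fun z => 2 * (65 / 63 - 63 / 65) * M + 2 * (63 / 65) * Real.log ‖h z‖) =
          (fun _ : ℂ => 2 * (65 / 63 - 63 / 65) * M) + (2 * (63 / 65) : ℝ) •
            (fun z => Real.log ‖h z‖) := by
        ext z
        simp [smul_eq_mul]
      rw [e2]
      exact (circleIntegrable_const _ _ _).add hUint.const_smul
    · intro z hz
      rw [abs_of_pos (by norm_num : (0 : ℝ) < 128)] at hz
      obtain ⟨b1, b2⟩ := ps_bounds hX0 hX16 hz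
      have hz1 : Real.log ‖h z‖ ≤ M := by
        refine hU 128 z (by norm_num) le_rfl ?_
        exact (mem_sphere_iff_norm.mp hz).le
      simp only [Pi.add_apply, Pi.mul_apply]
      set P1 := poissonKernel c (c + X) z
      set P2 := poissonKernel c (c - X) z
      set V := Real.log ‖h z‖
      -- (k - P) M ≥ 0, (P - 1/k)(M - V) ≥ 0
      have g1 : 0 ≤ (65 / 63 - (P1 + P2) / 2) * M := mul_nonneg (by linarith) hM0
      have g2 : 0 ≤ ((P1 + P2) / 2 - 63 / 65) * (M - V) := mul_nonneg (by linarith) (by linarith)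
      nlinarith [g1, g2]
  have hAlow : 65 / 63 * (L * (15 / 2) - C) - (65 / 63 * (65 / 63) - 1) * M ≤ A := by
    have : L * (15 / 2) - C ≤ (65 / 63 - 63 / 65) * M + 63 / 65 * A := by linarith
    linarith
  -- the small circle
  have hsmall : circleAverage (fun z => Real.log ‖h z‖) c 2 ≤ L * (2 / 2 + 1 / 2) + C := by
    refine circleAverage_mono_on_of_le_circle ?_ ?_
    · refine MeromorphicOn.circleIntegrable_log_norm ?_
      exact fun z _ => (hhd.analyticAt z).meromorphicAt
    · intro z hz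
      rw [abs_of_pos (by norm_num : (0 : ℝ) < 2)] at hz
      exact hU 2 z (by norm_num) (by norm_num) (mem_sphere_iff_norm.mp hz).le
  obtain ⟨S, hS1, hS2⟩ := jensen_two (c := c) (ρ := 2) (R := 128) (by norm_num) (by norm_num) hhd
  refine ⟨S, fun u hu => ?_, ?_⟩
  · have := hS1 u hu
    rw [hord] at this
    exact this
  · rw [← hA] at hS2
    have e : ∑ u ∈ S, (analyticOrderNatAt h u : ℝ) = ∑ u ∈ S, (analyticOrderNatAt H u : ℝ) :=
      Finset.sum_congr rfl fun u _ => by rw [hord]
    rw [e] at hS2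
    set N := ∑ u ∈ S, (analyticOrderNatAt H u : ℝ) with hN
    have hN0 : 0 ≤ N := Finset.sum_nonneg fun u _ => Nat.cast_nonneg _
    have hlog : Real.log 128 - Real.log 2 ≤ 4.1589 := by
      have : Real.log 128 = 7 * Real.log 2 := by
        rw [show (128 : ℝ) = 2 ^ 7 by norm_num, Real.log_pow]
        norm_num
      rw [this]
      linarith [Real.log_two_lt_d9]
    have h1 : N * (Real.log 128 - Real.log 2) ≤ N * 4.1589 := mul_le_mul_of_nonneg_left hlog hN0
    rw [hM] at hAlow
    nlinarith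
end Pool.Agent.H632.HD
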