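import Pool.Agent.H632.HD.PJ

/-!
# Lower bound for the number of zeros in a disc from pointwise bounds
-/

set_option autoImplicit false

namespace Pool.Agent.H632.HD

open Filter MeromorphicAt MeasureTheory MeromorphicOn Metric Real Set Topology Complex
open scoped ComplexConjugate

/-- the divisor of an analytic function -/
theorem div_eq {f : ℂ → ℂ} {c : ℂ} {R : ℝ} (hf : AnalyticOnNhd ℂ f (closedBall c R)) {u : ℂ}
    (hu : u ∈ closedBall c R) :
    (divisor f (closedBall c R) u : ℝ) = (analyticOrderNatAt f u : ℝ) := by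
  rw [hf.divisor_apply hu, analyticOrderNatAt]
  cases h : analyticOrderAt f u with
  | top => simp
  | coe n => simp

/-- Jensen's formula for two radii -/
theorem jensen_two {f : ℂ → ℂ} {c : ℂ} {ρ R : ℝ} (hρ : 0 < ρ) (hρR : ρ ≤ R)
    (hf : Differentiable ℂ f) :
    ∃ S : Finset ℂ, (∀ u ∈ S, u ∈ closedBall c R ∧ 0 < analyticOrderNatAt f u) ∧
      circleAverage (fun z => Real.log ‖f z‖) c R - circleAverage (fun z => Real.log ‖f z‖) c ρ ≤
        (∑ u ∈ S, (analyticOrderNatAt f u : ℝ)) * (Real.log R - Real.log ρ) := by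
  have hR : 0 < R := hρ.trans_le hρR
  have hfR : AnalyticOnNhd ℂ f (closedBall c R) := fun z _ => hf.analyticAt z
  have hfρ : AnalyticOnNhd ℂ f (closedBall c ρ) := fun z _ => hf.analyticAt z
  have hJR := MeromorphicOn.circleAverage_log_norm (c := c) (R := R) (f := f) hR.ne'
    (by rw [abs_of_pos hR]; exact hfR.meromorphicOn)
  have hJρ := MeromorphicOn.circleAverage_log_norm (c := c) (R := ρ) (f := f) hρ.ne'
    (by rw [abs_of_pos hρ]; exact hfρ.meromorphicOn)
  rw [abs_of_pos hR] at hJR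
  rw [abs_of_pos hρ] at hJρ
  have fR := (divisor f (closedBall c R)).finiteSupport (isCompact_closedBall c R)
  have fρ := (divisor f (closedBall c ρ)).finiteSupport (isCompact_closedBall c ρ)
  rw [← countingFunction_finsum_eq_finsum_add hR.ne' fR] at hJR
  rw [← countingFunction_finsum_eq_finsum_add hρ.ne' fρ] at hJρ
  set S : Finset ℂ := fR.toFinset with hS
  have hSmem : ∀ u ∈ S, u ∈ closedBall c R ∧ divisor f (closedBall c R) u ≠ 0 := by
    intro u hu
    rw [hS, Finite.mem_toFinset] at hu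
    exact ⟨(divisor f (closedBall c R)).supportWithinDomain hu, hu⟩
  have hRsum : ∑ᶠ u, (divisor f (closedBall c R) u : ℝ) * (Real.log R - Real.log ‖c - u‖) =
      ∑ u ∈ S, (divisor f (closedBall c R) u : ℝ) * (Real.log R - Real.log ‖c - u‖) := by
    rw [finsum_eq_sum_of_support_subset (s := S)]
    intro u hu
    rw [hS, Finite.coe_toFinset]
    intro h0
    apply hu
    simp [h0]
  have hρsum : ∑ᶠ u, (divisor f (closedBall c ρ) u : ℝ) * (Real.log ρ - Real.log ‖c - u‖) =
      ∑ u ∈ S, (divisor f (closedBall c ρ) u : ℝ) * (Real.log ρ - Real.log ‖c - u‖) := by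
    rw [finsum_eq_sum_of_support_subset (s := S)]
    intro u hu
    rw [hS, Finite.coe_toFinset]
    intro h0
    apply hu
    by_cases hm : u ∈ closedBall c ρ
    · have e1 := div_eq hfρ hm
      have e2 := div_eq hfR (closedBall_subset_closedBall hρR hm)
      rw [h0] at e2
      rw [← e2] at e1
      simp [e1]
    · have : divisor f (closedBall c ρ) u = 0 :=
        Function.locallyFinsuppWithin.apply_eq_zero_of_notMem _ hm
      simp [this]
  refine ⟨S, fun u hu => ⟨(hSmem u hu).1, ?_⟩, ?_⟩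
  · have h1 := div_eq hfR (hSmem u hu).1
    rcases Nat.eq_zero_or_pos (analyticOrderNatAt f u) with h | h
    · rw [h] at h1
      exact absurd (by exact_mod_cast h1) (hSmem u hu).2
    · exact h
  · rw [hJR, hJρ, hRsum, hρsum, add_sub_add_right_eq_sub, ← Finset.sum_sub_distrib,
      Finset.sum_mul]
    refine Finset.sum_le_sum fun u hu => ?_
    have h1 := div_eq hfR (hSmem u hu).1
    have h0 : (0 : ℝ) ≤ analyticOrderNatAt f u := Nat.cast_nonneg _
    by_cases hm : u ∈ closedBall c ρ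
    · have e1 := div_eq hfρ hm
      rw [h1, e1]
      apply le_of_eq
      ring
    · have e1 : divisor f (closedBall c ρ) u = 0 :=
        Function.locallyFinsuppWithin.apply_eq_zero_of_notMem _ hm
      rw [h1, e1, Int.cast_zero, zero_mul, sub_zero]
      refine mul_le_mul_of_nonneg_left ?_ h0
      have h2 : ρ < ‖c - u‖ := by
        rw [norm_sub_rev]
        by_contra h
        push Not at h
        exact hm (mem_closedBall_iff_norm.mpr h)
      have := Real.log_le_log hρ h2.le
      linarith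

/-- the symmetric Poisson kernel -/
theorem ps_bounds {c : ℂ} {z : ℂ} {X : ℝ} (hX0 : 0 ≤ X) (hX : X ≤ 16) (hz : z ∈ sphere c 128) :
    63 / 65 ≤ (poissonKernel c (c + X) z + poissonKernel c (c - X) z) / 2 ∧
      (poissonKernel c (c + X) z + poissonKernel c (c - X) z) / 2 ≤ 65 / 63 := by
  set p := (z - c).re with hp
  set q := (z - c).im with hq
  have hz' : ‖z - c‖ = 128 := mem_sphere_iff_norm.mp hz
  have hpq : p ^ 2 + q ^ 2 = 128 ^ 2 := by
    rw [← hz', ← normSq_eq_norm_sq, normSq_apply]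
    ring
  have hX2 : X ^ 2 ≤ 256 := by nlinarith
  have hp2 : p ^ 2 ≤ 128 ^ 2 := by nlinarith [sq_nonneg q]
  set a := (p - X) ^ 2 + q ^ 2 with ha
  set b := (p + X) ^ 2 + q ^ 2 with hb
  have h1 : poissonKernel c (c + X) z = (128 ^ 2 - X ^ 2) / a := by
    rw [poissonKernel_def, hz']
    have e1 : ‖c + (X : ℂ) - c‖ ^ 2 = X ^ 2 := by
      rw [add_sub_cancel_left, norm_real, norm_eq_abs, sq_abs]
    have e2 : ‖z - c - (c + (X : ℂ) - c)‖ ^ 2 = a := by
      rw [← normSq_eq_norm_sq, normSq_apply]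
      simp only [add_sub_cancel_left, sub_re, sub_im, ofReal_re, ofReal_im]
      rw [ha, hp, hq]
      simp only [sub_re, sub_im]
      ring
    rw [e1, e2]
  have h2 : poissonKernel c (c - X) z = (128 ^ 2 - X ^ 2) / b := by
    rw [poissonKernel_def, hz']
    have e1 : ‖c - (X : ℂ) - c‖ ^ 2 = X ^ 2 := by
      rw [sub_sub_cancel_left, norm_neg, norm_real, norm_eq_abs, sq_abs]
    have e2 : ‖z - c - (c - (X : ℂ) - c)‖ ^ 2 = b := by
      rw [← normSq_eq_norm_sq, normSq_apply]
      simp only [sub_sub_cancel_left, sub_re, sub_im, neg_re, neg_im, ofReal_re, ofReal_im]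
      rw [hb, hp, hq]
      simp only [sub_re, sub_im]
      ring
    rw [e1, e2]
  have hab : a + b = 2 * (128 ^ 2 + X ^ 2) := by
    rw [ha, hb]; nlinarith [hpq]
  have habm : a * b = (128 ^ 2 + X ^ 2) ^ 2 - 4 * p ^ 2 * X ^ 2 := by
    have e1 : a = 128 ^ 2 + X ^ 2 - 2 * p * X := by rw [ha]; nlinarith [hpq]
    have e2 : b = 128 ^ 2 + X ^ 2 + 2 * p * X := by rw [hb]; nlinarith [hpq]
    rw [e1, e2]; ring
  have hlow : (128 ^ 2 - X ^ 2) ^ 2 ≤ a * b := by
    rw [habm]
    nlinarith [mul_nonneg (sub_nonneg.mpr hp2) (sq_nonneg X)]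
  have hup : a * b ≤ (128 ^ 2 + X ^ 2) ^ 2 := by
    rw [habm]
    nlinarith [mul_nonneg (sq_nonneg p) (sq_nonneg X)]
  have hD : 0 < 128 ^ 2 - X ^ 2 := by nlinarith
  have hab0 : 0 < a * b := lt_of_lt_of_le (by positivity) hlow
  have ha0 : 0 < a := by
    rcases lt_trichotomy a 0 with h | h | h
    · have : 0 ≤ a := by rw [ha]; positivity
      linarith
    · rw [h, zero_mul] at hab0; exact absurd hab0 (lt_irrefl _)
    · exact h
  have hb0 : 0 < b := by
    rcases lt_trichotomy b 0 with h | h | h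
    · have : 0 ≤ b := by rw [hb]; positivity
      linarith
    · rw [h, mul_zero] at hab0; exact absurd hab0 (lt_irrefl _)
    · exact h
  have hval : (poissonKernel c (c + X) z + poissonKernel c (c - X) z) / 2 =
      (128 ^ 2 - X ^ 2) * (128 ^ 2 + X ^ 2) / (a * b) := by
    rw [h1, h2]
    have : (128 ^ 2 - X ^ 2) / a + (128 ^ 2 - X ^ 2) / b = (128 ^ 2 - X ^ 2) * (a + b) / (a * b) := by
      field_simp
      ring
    rw [this, hab]
    ring
  rw [hval]
  constructor
  · rw [le_div_iff₀ hab0]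
    calc 63 / 65 * (a * b) ≤ 63 / 65 * (128 ^ 2 + X ^ 2) ^ 2 := by linarith
      _ ≤ (128 ^ 2 - X ^ 2) * (128 ^ 2 + X ^ 2) := by nlinarith
  · rw [div_le_iff₀ hab0]
    calc (128 ^ 2 - X ^ 2) * (128 ^ 2 + X ^ 2) ≤ 65 / 63 * (128 ^ 2 - X ^ 2) ^ 2 := by nlinarith
      _ ≤ 65 / 63 * (a * b) := by linarith

end Pool.Agent.H632.HD
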