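import Mathlib

/-!
# The Poisson-Jensen inequality
-/

set_option autoImplicit false

namespace Pool.Agent.H632.HD

open Filter MeromorphicAt MeasureTheory MeromorphicOn Metric Real Set Topology Complex
open scoped ComplexConjugate

/-- a linear factor with its zero in the closed disc -/
theorem pj_factor {c w u : ℂ} {R : ℝ} (hR : 0 < R) (hw : w ∈ ball c R) (hu : u ∈ closedBall c R)
    (huw : w ≠ u) :
    Real.log ‖w - u‖ ≤ circleAverage (poissonKernel c w * fun z => Real.log ‖z - u‖) c R := by
  rcases (mem_closedBall_iff_norm.mp hu).eq_or_lt with h | h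
  · have h1 := circleAverage_re_herglotzRieszKernel_mul_log (w := w) (ρ := u) (c := c) (R := R)
      (mem_sphere_iff_norm.mpr h) hw
    rw [← poissonKernel_eq_re_herglotzRieszKernel] at h1
    exact h1.ge
  · set q : ℂ → ℂ := fun z => ((R : ℂ) ^ 2 - conj (u - c) * (z - c)) / R with hq
    have hqd : Differentiable ℂ q := by
      rw [hq]
      fun_prop
    have hne : ∀ z ∈ closedBall c R, q z ≠ 0 := by
      intro z hz h0
      rw [hq] at h0
      simp only [div_eq_zero_iff, ofReal_eq_zero] at h0
      rcases h0 with h0 | h0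
      · have h1 : (R : ℂ) ^ 2 = conj (u - c) * (z - c) := sub_eq_zero.mp h0
        have h2 := congrArg norm h1
        rw [norm_mul, RCLike.norm_conj, norm_pow, norm_real, norm_eq_abs, abs_of_pos hR] at h2
        have h3 : ‖z - c‖ ≤ R := mem_closedBall_iff_norm.mp hz
        nlinarith [norm_nonneg (u - c), norm_nonneg (z - c)]
      · exact hR.ne' h0
    have hharm : InnerProductSpace.HarmonicOnNhd (fun z => Real.log ‖q z‖) (closedBall c R) := by
      intro z hz
      exact AnalyticAt.harmonicAt_log_norm (hqd.analyticAt z) (hne z hz)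
    have hP := InnerProductSpace.HarmonicOnNhd.circleAverage_poissonKernel_smul hharm hw
    have hcongr : circleAverage (poissonKernel c w * fun z => Real.log ‖z - u‖) c R =
        circleAverage (poissonKernel c w • fun z => Real.log ‖q z‖) c R := by
      refine circleAverage_congr_sphere fun z hz => ?_
      have hz' : ‖z - c‖ = R := by
        rw [abs_of_pos hR] at hz
        exact mem_sphere_iff_norm.mp hz
      have key : ‖z - u‖ = ‖q z‖ := by
        have e1 : (R : ℂ) ^ 2 = conj (z - c) * (z - c) := by
          rw [← normSq_eq_conj_mul_self, normSq_eq_norm_sq, hz']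
          push_cast; rfl
        have e2 : q z = conj (z - u) * (z - c) / R := by
          simp only [hq]
          rw [e1, ← sub_mul, ← map_sub]
          congr 3
          ring
        rw [e2, norm_div, norm_mul, RCLike.norm_conj, hz', norm_real, norm_eq_abs,
          abs_of_pos hR]
        field_simp
      simp only [Pi.mul_apply, Pi.smul_apply', smul_eq_mul, key]
    rw [hcongr, hP]
    refine Real.log_le_log (norm_pos_iff.mpr (sub_ne_zero.mpr huw)) ?_
    -- |w - u| R ≤ |R^2 - conj(u-c)(w-c)|
    have hw' : ‖w - c‖ < R := mem_ball_iff_norm.mp hw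
    simp only [hq]
    rw [norm_div, norm_real, norm_eq_abs, abs_of_pos hR, le_div_iff₀ hR]
    have h1 : (‖w - u‖ * R) ^ 2 ≤ ‖(R : ℂ) ^ 2 - conj (u - c) * (w - c)‖ ^ 2 := by
      have e : ‖(R : ℂ) ^ 2 - conj (u - c) * (w - c)‖ ^ 2 - (‖w - u‖ * R) ^ 2 =
          (R ^ 2 - ‖u - c‖ ^ 2) * (R ^ 2 - ‖w - c‖ ^ 2) := by
        rw [mul_pow]
        rw [← normSq_eq_norm_sq, ← normSq_eq_norm_sq, ← normSq_eq_norm_sq, ← normSq_eq_norm_sq]
        simp only [normSq_apply, sub_re, sub_im, mul_re, mul_im, conj_re, conj_im, pow_two,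
          ofReal_re, ofReal_im]
        ring
      have h2 : 0 ≤ (R ^ 2 - ‖u - c‖ ^ 2) * (R ^ 2 - ‖w - c‖ ^ 2) := by
        refine mul_nonneg ?_ ?_
        · nlinarith [norm_nonneg (u - c)]
        · nlinarith [norm_nonneg (w - c)]
      linarith
    exact le_of_sq_le_sq h1 (norm_nonneg _)
  where
  le_of_sq_le_sq {a b : ℝ} (h : a ^ 2 ≤ b ^ 2) (hb : 0 ≤ b) : a ≤ b := by
    exact (abs_le_of_sq_le_sq' h hb).2

/-- **Poisson-Jensen inequality** -/
theorem pj {c w : ℂ} {R : ℝ} {f : ℂ → ℂ} (hR : 0 < R)
    (hf : AnalyticOnNhd ℂ f (closedBall c R)) (hw : w ∈ ball c R) (hfw : f w ≠ 0) :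
    Real.log ‖f w‖ ≤ circleAverage (poissonKernel c w * fun z => Real.log ‖f z‖) c R := by
  have habs : |R| = R := abs_of_pos hR
  have h₁f : MeromorphicOn f (closedBall c R) := hf.meromorphicOn
  have hwc : w ∈ closedBall c R := ball_subset_closedBall hw
  have h₂f : ∀ u ∈ closedBall c R, meromorphicOrderAt f u ≠ ⊤ := by
    have h0 : ∃ u : closedBall c R, meromorphicOrderAt f u ≠ ⊤ := by
      refine ⟨⟨w, hwc⟩, ?_⟩
      rw [(hf w hwc).meromorphicOrderAt_eq, (hf w hwc).analyticOrderAt_eq_zero.mpr hfw]
      simp
    rw [h₁f.exists_meromorphicOrderAt_ne_top_iff_forall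
      ⟨nonempty_closedBall.mpr hR.le, (convex_closedBall c R).isPreconnected⟩] at h0
    exact fun u hu => h0 ⟨u, hu⟩
  have h₃f := (divisor f (closedBall c R)).finiteSupport (isCompact_closedBall c R)
  obtain ⟨g, h₁g, h₂g, h₃g⟩ := h₁f.extract_zeros_poles (by simpa using h₂f) h₃f
  have h₄g := extract_zeros_poles_log h₂g h₃g
  set S : Finset ℂ := h₃f.toFinset with hS
  have hsum : (∑ᶠ u, (divisor f (closedBall c R) u * Real.log ‖· - u‖) : ℂ → ℝ) =
      fun z => ∑ u ∈ S, (divisor f (closedBall c R) u : ℝ) * Real.log ‖z - u‖ := by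
    rw [finsum_eq_sum_of_support_subset (s := S)]
    · ext z
      simp
    · intro u hu
      rw [hS, Finite.coe_toFinset]
      intro h0
      apply hu
      ext z
      simp [h0]
  have hSmem : ∀ u ∈ S, u ∈ closedBall c R := by
    intro u hu
    rw [hS, Finite.mem_toFinset] at hu
    exact (divisor f (closedBall c R)).supportWithinDomain hu
  have hDnn : ∀ u, (0 : ℝ) ≤ (divisor f (closedBall c R) u : ℝ) := fun u => by
    have := hf.divisor_nonneg u
    exact_mod_cast this
  have hDw : divisor f (closedBall c R) w = 0 := by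
    rw [hf.divisor_apply hwc, (hf w hwc).analyticOrderAt_eq_zero.mpr hfw]
    simp
  -- continuity of the kernel
  have hPc : ContinuousOn (poissonKernel c w) (sphere c |R|) := by
    rw [poissonKernel_eq_re_herglotzRieszKernel]
    exact Complex.continuous_re.comp_continuousOn (continuousOn_herglotzRieszKernel_sphere hw)
  have hint : ∀ u, CircleIntegrable (fun z => Real.log ‖z - u‖) c R := fun u =>
    MeromorphicOn.circleIntegrable_log_norm (f := fun z ↦ z - u) (by intro; fun_prop)
  have hgint : CircleIntegrable (fun z => Real.log ‖g z‖) c R := by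
    refine MeromorphicOn.circleIntegrable_log_norm ?_
    rw [habs]
    exact (h₁g.mono sphere_subset_closedBall).meromorphicOn
  have hgP : circleAverage (poissonKernel c w * fun z => Real.log ‖g z‖) c R =
      Real.log ‖g w‖ := by
    have hharm : InnerProductSpace.HarmonicOnNhd (fun z => Real.log ‖g z‖) (closedBall c R) := by
      intro z hz
      exact AnalyticAt.harmonicAt_log_norm (h₁g z hz) (h₂g ⟨z, hz⟩)
    exact InnerProductSpace.HarmonicOnNhd.circleAverage_poissonKernel_smul hharm hw
  have hmain : circleAverage (poissonKernel c w * fun z => Real.log ‖f z‖) c R =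
      ∑ u ∈ S, (divisor f (closedBall c R) u : ℝ) *
        circleAverage (poissonKernel c w * fun z => Real.log ‖z - u‖) c R + Real.log ‖g w‖ := by
    have e1 : circleAverage (poissonKernel c w * fun z => Real.log ‖f z‖) c R =
        circleAverage ((∑ u ∈ S, (divisor f (closedBall c R) u : ℝ) •
          (poissonKernel c w * fun z => Real.log ‖z - u‖)) +
          (poissonKernel c w * fun z => Real.log ‖g z‖)) c R := by
      refine circleAverage_congr_codiscreteWithin ?_ hR.ne'
      have h5 := codiscreteWithin_mono (sphere_subset_closedBall (x := c) (ε := R)) h₄g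
      rw [habs]
      filter_upwards [h5] with z hz
      rw [hsum] at hz
      simp only [Pi.add_apply] at hz
      simp only [Pi.mul_apply, Pi.add_apply, Finset.sum_apply, Pi.smul_apply, smul_eq_mul]
      rw [hz, mul_add, Finset.mul_sum]
      congr 1
      refine Finset.sum_congr rfl fun u _ => ?_
      ring
    rw [e1, circleAverage_add, circleAverage_sum, hgP]
    · congr 1
      refine Finset.sum_congr rfl fun u _ => ?_
      rw [circleAverage_smul, smul_eq_mul]
    · intro u _
      exact ((hint u).continuousOn_mul hPc).const_smul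
    · refine CircleIntegrable.sum _ fun u _ => ?_
      exact ((hint u).continuousOn_mul hPc).const_smul
    · exact hgint.continuousOn_mul hPc
  have hval : Real.log ‖f w‖ =
      ∑ u ∈ S, (divisor f (closedBall c R) u : ℝ) * Real.log ‖w - u‖ + Real.log ‖g w‖ := by
    have t₁ : AccPt w (𝓟 (closedBall c R)) := by
      apply accPt_iff_frequently_nhdsNE.mpr
      apply compl_notMem
      apply mem_nhdsWithin.mpr
      exact ⟨ball c R, isOpen_ball, hw, fun _ h => by simpa using ball_subset_closedBall h.1⟩
    have h6 := MeromorphicOn.log_norm_meromorphicTrailingCoeffAt_extract_zeros_poles h₃f hwc t₁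
      (h₁f w hwc) (h₁g w hwc) (h₂g ⟨w, hwc⟩) h₃g
    rw [(hf w hwc).meromorphicTrailingCoeffAt_of_ne_zero hfw] at h6
    rw [h6]
    congr 1
    rw [finsum_eq_sum_of_support_subset (s := S)]
    intro u hu
    rw [hS, Finite.coe_toFinset]
    intro h0
    apply hu
    simp [h0]
  rw [hval, hmain]
  gcongr with u hu
  · exact hDnn u
  · refine pj_factor hR hw (hSmem u hu) ?_
    rintro rfl
    rw [hS, Finite.mem_toFinset] at hu
    exact hu hDw

end Pool.Agent.H632.HD
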