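import Pool.Agent.H632.HD.LA
import Pool.Agent.H466.HD.SC
import Pool.Agent.H466.HP.H10

/-!
# The backward heat flow has at least `c T log T` zeros between the heights `T` and `2T`
-/

set_option autoImplicit false

namespace Pool.Agent.H632.HD

open Complex MeasureTheory Set Filter Topology
open scoped ComplexConjugate
open Pool.Agent.H466.HF Pool.Agent.H466.LD Pool.Agent.H466.HP Pool.Agent.H466.HN
open Pool.Agent.H466.HD (S_UL S_TLB)

theorem tlb (h : S_UL) : S_TLB := by
  obtain ⟨C, δ, T0, hC, hδ, hT0, hU⟩ := h 128 (by norm_num)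
  obtain ⟨A, K, μ0, Q, T00, -, -, hT00, k, hdata⟩ := far_data
  refine ⟨1 / 1290, δ, max (max T0 T00) (max (Real.exp (10 * C)) 516), by norm_num, hδ,
    hT0.trans ((le_max_left _ _).trans (le_max_left _ _)), ?_⟩
  intro T μ hT hμ hμT
  have hTT0 : T0 ≤ T := ((le_max_left _ _).trans (le_max_left _ _)).trans hT
  have hTT00 : T00 ≤ T := ((le_max_right _ _).trans (le_max_left _ _)).trans hT
  have hTe : Real.exp (10 * C) ≤ T := ((le_max_left _ _).trans (le_max_right _ _)).trans hT
  have hT516 : 516 ≤ T := ((le_max_right _ _).trans (le_max_right _ _)).trans hT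
  have hTpos : 0 < T := by linarith
  have hL : 10 * C ≤ Real.log T := (Real.le_log_iff_exp_le hTpos).mpr hTe
  refine tlb_abs (H := LL gk (-μ)) (k.differentiable (-μ)) (fun z => ?_)
    (G := fun t => ‖gz ((t : ℂ) * I)‖) (L := Real.log T) (C := C) (T := T) hC.le hL hT516
    (fun t h1 h2 => (hdata T t hTT00 h1 h2).1.Γpos) (fun t h1 h2 => ?_) (fun t h1 h2 => ?_)
  · rw [Flam_fe, RCLike.norm_conj]
  · exact (hU T t μ hTT0 h1 h2 hμ hμT).1
  · exact (hU T t μ hTT0 h1 h2 hμ hμT).2 15 t (by norm_num) (by norm_num) (by simp)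

end Pool.Agent.H632.HD
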